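import Pool.Agent.L7h12.PM.Cst
import Pool.Agent.L7h49.PM.Def5

/-! # Project PM (helper49), quantitative form, part CSTB (helper12): the crossing step in a disc -/

set_option autoImplicit false

namespace Pool.Agent.L7h12.PM

open Pool.Agent.L7h49.PM

open Cst

namespace CstB

variable {V : Type} {G : SimpleGraph V} {f : V → E2} {C D : ℝ}

theorem norm_le (p : E2) : ‖p‖ ≤ |p 0| + |p 1| := by
  rw [EuclideanSpace.norm_eq]
  apply Real.sqrt_le_iff.2
  refine ⟨by positivity, ?_⟩
  rw [Fin.sum_univ_two, Real.norm_eq_abs, Real.norm_eq_abs]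
  nlinarith [abs_nonneg (p 0), abs_nonneg (p 1)]

/-- connected: ends and a connected set between them -/
theorem three_conn (h1 : S_CONB) (hR : RoughB G f C D) {p q : E2} {P : Set V} {a c : V}
    (hp : ‖p‖ ≤ D) (hq : ‖q‖ ≤ D)
    (ha : ‖f a - p‖ ≤ C) (hc : ‖f c - q‖ ≤ C) (haP : a ∈ P) (hcP : c ∈ P)
    (hP : (G.induce P).Connected) :
    (G.induce (Fat G f C {p} ∪ P ∪ Fat G f C {q})).Connected := by
  have hA := ((h1 V G f C D hR {p} (by intro x hx; rw [Set.mem_singleton_iff] at hx; rw [hx]; exact hp)).1 isPreconnected_singleton (Set.singleton_nonempty p))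
  have hB := ((h1 V G f C D hR {q} (by intro x hx; rw [Set.mem_singleton_iff] at hx; rw [hx]; exact hq)).1 isPreconnected_singleton (Set.singleton_nonempty q))
  have h2 : (G.induce (Fat G f C {p} ∪ P)).Connected :=
    SimpleGraph.induce_union_connected hA.preconnected hP.preconnected ⟨a, mem_fat hR.one (Set.mem_singleton p) ha, haP⟩
  exact SimpleGraph.induce_union_connected h2.preconnected hB.preconnected
    ⟨c, Or.inr hcP, mem_fat hR.one (Set.mem_singleton q) hc⟩

theorem sgl_coord (h1 : S_CONB) (hR : RoughB G f C D) {x y : ℝ} {w : V}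
    (hD : |x| + |y| ≤ D) (hw : w ∈ Fat G f C {pt x y}) :
    x - 6 * C ≤ f w 0 ∧ f w 0 ≤ x + 6 * C ∧ y - 6 * C ≤ f w 1 ∧ f w 1 ≤ y + 6 * C := by
  obtain ⟨p, hp, h⟩ := (h1 V G f C D hR {pt x y} (by
    intro p hp; rw [Set.mem_singleton_iff] at hp; rw [hp]; exact (norm_le _).trans hD)).2 w hw
  rw [Set.mem_singleton_iff] at hp
  subst hp
  exact near_coord h

theorem seg_norm {x1 x2 y : ℝ} (hD : ∀ x, x1 ≤ x → x ≤ x2 → |x| + |y| ≤ D) :
    ∀ p ∈ seg x1 x2 y, ‖p‖ ≤ D := by
  rintro p ⟨g1, g2, g3⟩
  refine (norm_le p).trans ?_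
  rw [g3]
  exact hD _ g1 g2

theorem seg_coord (h1 : S_CONB) (hR : RoughB G f C D) {x1 x2 y : ℝ} {w : V}
    (hD : ∀ x, x1 ≤ x → x ≤ x2 → |x| + |y| ≤ D) (hw : w ∈ Fat G f C (seg x1 x2 y)) :
    x1 - 6 * C ≤ f w 0 ∧ f w 0 ≤ x2 + 6 * C ∧ y - 6 * C ≤ f w 1 ∧ f w 1 ≤ y + 6 * C := by
  obtain ⟨p, hp, h⟩ := (h1 V G f C D hR (seg x1 x2 y) (seg_norm hD)).2 w hw
  obtain ⟨g1, g2, g3⟩ := hp
  obtain ⟨k1, k2, k3, k4⟩ := near_coord h
  rw [g3] at k3 k4
  exact ⟨by linarith, by linarith, k3, k4⟩

end CstB

open CstB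

theorem s_CSTB (h1 : S_CONB) (h2 : S_GLUEB) : S_CSTB := by
  intro V G f C D hR t R W L y0 y1 t0 t1 a b c d P Q hX hy1 ht1 eta B i j hS hij hDk hi hj hk
  have hC := hR.one
  have hC0 : 0 < C := by linarith
  have hL := hX.large
  have hy0 := hX.hy0
  have hy := hX.hy
  have ht0 := hX.ht0
  have ht := hX.ht
  have hL0 : 0 ≤ L := by nlinarith
  have hD0 : 2 * |R| + |W| + 3 * L ≤ D := by have := hDk i; have := abs_nonneg (eta i); linarith
  have b0 : |R| + |W + y0| ≤ D := by
    have := abs_add_le W y0; rw [abs_of_nonneg hy0] at this; have := abs_nonneg R; linarith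
  have b1 : |R| + |W + y1| ≤ D := by
    have := abs_add_le W y1; rw [abs_of_nonneg (by linarith : (0 : ℝ) ≤ y1)] at this
    have := abs_nonneg R; linarith
  have bRL : |R + L| ≤ |R| + L := by
    have := abs_add_le R L; rwa [abs_of_nonneg hL0] at this
  have b2 : |R + L| + |W + t1| ≤ D := by
    have := abs_add_le W t1; rw [abs_of_nonneg (by linarith : (0 : ℝ) ≤ t1)] at this
    have := abs_nonneg R; linarith
  have b3 : |R + L| + |W + t0| ≤ D := by
    have := abs_add_le W t0; rw [abs_of_nonneg ht0] at this; have := abs_nonneg R; linarith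
  have bs : ∀ k, ∀ x, R ≤ x → x ≤ R + L → |x| + |eta k| ≤ D := by
    intro k x h1 h2
    have hx : |x| ≤ |R| + L := by
      rw [abs_le]
      have := neg_abs_le R; have := le_abs_self R
      constructor <;> linarith
    have := hDk k; have := abs_nonneg R; have := abs_nonneg W; linarith
  classical
  -- the new sets
  let Ni : Set V := Fat G f C {pt R (W + y0)} ∪ P ∪ Fat G f C {pt (R + L) (W + t1)}
  let Nj : Set V := Fat G f C {pt R (W + y1)} ∪ Q ∪ Fat G f C {pt (R + L) (W + t0)}
  let N : Fin t → Set V := fun k => if k = i then Ni else if k = j then Nj else Fat G f C (seg R (R + L) (eta k))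
  have hNi : N i = Ni := by simp [N]
  have hNj : N j = Nj := by simp [N, hij.symm]
  have hNk : ∀ k, k ≠ i → k ≠ j → N k = Fat G f C (seg R (R + L) (eta k)) := by
    intro k hki hkj; simp [N, hki, hkj]
  let eta' : Fin t → ℝ := fun k => if k = i then W + t1 else if k = j then W + t0 else eta k
  have hei : eta' i = W + t1 := by simp [eta']
  have hej : eta' j = W + t0 := by simp [eta', hij.symm]
  have hek : ∀ k, k ≠ i → k ≠ j → eta' k = eta k := by
    intro k hki hkj; simp [eta', hki, hkj]
  -- the coordinates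
  have cP : ∀ w ∈ P, R - 7 * C ≤ f w 0 ∧ f w 0 ≤ R + L + 7 * C ∧ W - 100 * C ≤ f w 1 ∧
      f w 1 ≤ W + t1 + 100 * C ∧ (f w 0 ≤ R + 7 * C → W + y0 - 30 * C ≤ f w 1 ∧ f w 1 ≤ W + y0 + 30 * C) ∧
      (R + L - 7 * C ≤ f w 0 → W + t1 - 30 * C ≤ f w 1 ∧ f w 1 ≤ W + t1 + 30 * C) := by
    intro w hw
    obtain ⟨r1, r2, r3, r4, r5, r6⟩ := hX.rP w hw
    refine ⟨by linarith, by linarith, by linarith, by linarith, fun h => ?_, fun h => ?_⟩
    · have := abs_le.1 (r5 (by linarith)); exact ⟨by linarith [this.1], by linarith [this.2]⟩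
    · have := abs_le.1 (r6 (by linarith)); exact ⟨by linarith [this.1], by linarith [this.2]⟩
  have cQ : ∀ w ∈ Q, R - 7 * C ≤ f w 0 ∧ f w 0 ≤ R + L + 7 * C ∧ W - 100 * C ≤ f w 1 ∧
      f w 1 ≤ W + t0 + 100 * C ∧ (f w 0 ≤ R + 7 * C → W + y1 - 30 * C ≤ f w 1 ∧ f w 1 ≤ W + y1 + 30 * C) ∧
      (R + L - 7 * C ≤ f w 0 → W + t0 - 30 * C ≤ f w 1 ∧ f w 1 ≤ W + t0 + 30 * C) := by
    intro w hw
    obtain ⟨r1, r2, r3, r4, r5, r6⟩ := hX.rQ w hw
    refine ⟨by linarith, by linarith, by linarith, by linarith, fun h => ?_, fun h => ?_⟩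
    · have := abs_le.1 (r5 (by linarith)); exact ⟨by linarith [this.1], by linarith [this.2]⟩
    · have := abs_le.1 (r6 (by linarith)); exact ⟨by linarith [this.1], by linarith [this.2]⟩
  -- disjointness
  have dij : ∀ w, w ∈ Ni → w ∈ Nj → False := by
    intro w hw hw'
    rcases hw with (hw | hw) | hw <;> rcases hw' with (hw' | hw') | hw'
    · have u := sgl_coord h1 hR (by first | exact b0 | exact b1 | exact b2 | exact b3) hw; have v := sgl_coord h1 hR (by first | exact b0 | exact b1 | exact b2 | exact b3) hw'; linarith [u.2.2.2, v.2.2.1]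
    · have u := sgl_coord h1 hR (by first | exact b0 | exact b1 | exact b2 | exact b3) hw; have v := cQ w hw'
      have := (v.2.2.2.2.1 (by linarith [u.2.1])).1; linarith [u.2.2.2]
    · have u := sgl_coord h1 hR (by first | exact b0 | exact b1 | exact b2 | exact b3) hw; have v := sgl_coord h1 hR (by first | exact b0 | exact b1 | exact b2 | exact b3) hw'; linarith [u.2.1, v.1]
    · have u := cP w hw; have v := sgl_coord h1 hR (by first | exact b0 | exact b1 | exact b2 | exact b3) hw'
      have := (u.2.2.2.2.1 (by linarith [v.2.1])).2; linarith [v.2.2.1]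
    · exact Set.disjoint_left.1 hX.disj hw hw'
    · have u := cP w hw; have v := sgl_coord h1 hR (by first | exact b0 | exact b1 | exact b2 | exact b3) hw'
      have := (u.2.2.2.2.2 (by linarith [v.1])).1; linarith [v.2.2.2]
    · have u := sgl_coord h1 hR (by first | exact b0 | exact b1 | exact b2 | exact b3) hw; have v := sgl_coord h1 hR (by first | exact b0 | exact b1 | exact b2 | exact b3) hw'; linarith [u.1, v.2.1]
    · have u := sgl_coord h1 hR (by first | exact b0 | exact b1 | exact b2 | exact b3) hw; have v := cQ w hw'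
      have := (v.2.2.2.2.2 (by linarith [u.1])).2; linarith [u.2.2.1]
    · have u := sgl_coord h1 hR (by first | exact b0 | exact b1 | exact b2 | exact b3) hw; have v := sgl_coord h1 hR (by first | exact b0 | exact b1 | exact b2 | exact b3) hw'; linarith [u.2.2.1, v.2.2.2]
  have dik : ∀ k, k ≠ i → k ≠ j → ∀ w, w ∈ Ni → w ∈ Fat G f C (seg R (R + L) (eta k)) → False := by
    intro k hki hkj w hw hw'
    have v := seg_coord h1 hR (bs k) hw'
    rcases hw with (hw | hw) | hw
    · have u := sgl_coord h1 hR (by first | exact b0 | exact b1 | exact b2 | exact b3) hw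
      rcases le_abs.1 (hS.sep k i hki) with s | s
      · rw [hi] at s; linarith [u.2.2.2, v.2.2.1]
      · rw [hi] at s; linarith [u.2.2.1, v.2.2.2]
    · have u := cP w hw
      rcases hk k hki hkj with s | s
      · linarith [u.2.2.1, v.2.2.2]
      · linarith [u.2.2.2.1, v.2.2.1]
    · have u := sgl_coord h1 hR (by first | exact b0 | exact b1 | exact b2 | exact b3) hw
      rcases hk k hki hkj with s | s
      · linarith [u.2.2.1, v.2.2.2]
      · linarith [u.2.2.2, v.2.2.1]
  have djk : ∀ k, k ≠ i → k ≠ j → ∀ w, w ∈ Nj → w ∈ Fat G f C (seg R (R + L) (eta k)) → False := by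
    intro k hki hkj w hw hw'
    have v := seg_coord h1 hR (bs k) hw'
    rcases hw with (hw | hw) | hw
    · have u := sgl_coord h1 hR (by first | exact b0 | exact b1 | exact b2 | exact b3) hw
      rcases le_abs.1 (hS.sep k j hkj) with s | s
      · rw [hj] at s; linarith [u.2.2.2, v.2.2.1]
      · rw [hj] at s; linarith [u.2.2.1, v.2.2.2]
    · have u := cQ w hw
      rcases hk k hki hkj with s | s
      · linarith [u.2.2.1, v.2.2.2]
      · linarith [u.2.2.2.1, v.2.2.1]
    · have u := sgl_coord h1 hR (by first | exact b0 | exact b1 | exact b2 | exact b3) hw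
      rcases hk k hki hkj with s | s
      · linarith [u.2.2.1, v.2.2.2]
      · linarith [u.2.2.2, v.2.2.1]
  have dkl : ∀ k l, k ≠ l → ∀ w, w ∈ Fat G f C (seg R (R + L) (eta k)) →
      w ∈ Fat G f C (seg R (R + L) (eta l)) → False := by
    intro k l hkl w hw hw'
    have u := seg_coord h1 hR (bs k) hw
    have v := seg_coord h1 hR (bs l) hw'
    rcases le_abs.1 (hS.sep k l hkl) with s | s
    · linarith [u.2.2.1, v.2.2.2]
    · linarith [u.2.2.2, v.2.2.1]
  refine ⟨fun k => B k ∪ N k, fun k => Set.subset_union_left,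
    h2 V G f C D hR t R (R + L) eta eta' B N hS (fun k => bs k R le_rfl (by linarith)) (by linarith) ?_ ?_ ?_ ?_ ?_ ?_⟩
  · -- the new heights
    have key : ∀ k, k ≠ i → k ≠ j → 200 * C ≤ |eta' k - eta' i| ∧ 200 * C ≤ |eta' k - eta' j| := by
      intro k hki hkj
      rw [hek k hki hkj, hei, hej]
      rcases hk k hki hkj with s | s
      · exact ⟨le_abs.2 (Or.inr (by linarith)), le_abs.2 (Or.inr (by linarith))⟩
      · exact ⟨le_abs.2 (Or.inl (by linarith)), le_abs.2 (Or.inl (by linarith))⟩
    have kij : 200 * C ≤ |eta' i - eta' j| := by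
      rw [hei, hej]; exact le_abs.2 (Or.inl (by linarith))
    intro k l hkl
    by_cases k1 : k = i
    · subst k1
      by_cases l1 : l = j
      · subst l1; exact kij
      · rw [abs_sub_comm]; exact (key l (Ne.symm hkl) l1).1
    · by_cases k2 : k = j
      · subst k2
        by_cases l1 : l = i
        · subst l1; rw [abs_sub_comm]; exact kij
        · rw [abs_sub_comm]; exact (key l l1 (Ne.symm hkl)).2
      · by_cases l1 : l = i
        · subst l1; exact (key k k1 k2).1
        · by_cases l2 : l = j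
          · subst l2; exact (key k k1 k2).2
          · rw [hek k k1 k2, hek l l1 l2]; exact hS.sep k l hkl
  · -- connected
    intro k
    by_cases k1 : k = i
    · rw [k1, hNi]; exact three_conn h1 hR ((norm_le _).trans b0) ((norm_le _).trans b2) hX.na hX.nc hX.aP hX.cP hX.conP
    · by_cases k2 : k = j
      · rw [k2, hNj]; exact three_conn h1 hR ((norm_le _).trans b1) ((norm_le _).trans b3) hX.nb hX.nd hX.bQ hX.dQ hX.conQ
      · rw [hNk k k1 k2]
        refine (h1 V G f C D hR _ (seg_norm (bs k))).1 (seg_pre _ _ _) ⟨pt R (eta k), ?_⟩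
        exact ⟨le_rfl, by rw [pt0]; linarith, rfl⟩
  · -- disjoint
    intro k l hkl
    rw [Set.disjoint_left]
    intro w hw hw'
    by_cases k1 : k = i
    · subst k1
      rw [hNi] at hw
      by_cases l1 : l = j
      · rw [l1, hNj] at hw'; exact dij w hw hw'
      · rw [hNk l (Ne.symm hkl) l1] at hw'; exact dik l (Ne.symm hkl) l1 w hw hw'
    · by_cases k2 : k = j
      · subst k2
        rw [hNj] at hw
        by_cases l1 : l = i
        · rw [l1, hNi] at hw'; exact dij w hw' hw
        · rw [hNk l l1 (Ne.symm hkl)] at hw'; exact djk l l1 (Ne.symm hkl) w hw hw'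
      · rw [hNk k k1 k2] at hw
        by_cases l1 : l = i
        · rw [l1, hNi] at hw'; exact dik k k1 k2 w hw' hw
        · by_cases l2 : l = j
          · rw [l2, hNj] at hw'; exact djk k k1 k2 w hw' hw
          · rw [hNk l l1 l2] at hw'; exact dkl k l hkl w hw hw'
  · -- the region
    intro k w hw
    by_cases k1 : k = i
    · subst k1
      rw [hNi] at hw
      rw [hei, hi]
      rcases hw with (hw | hw) | hw
      · obtain ⟨u1, u2, u3, u4⟩ := sgl_coord h1 hR (by first | exact b0 | exact b1 | exact b2 | exact b3) hw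
        exact ⟨by linarith, fun _ => abs_le.2 ⟨by linarith, by linarith⟩, by linarith, fun h => by linarith⟩
      · obtain ⟨u1, u2, u3, u4, u5, u6⟩ := cP w hw
        exact ⟨by linarith, fun h => abs_le.2 ⟨by linarith [(u5 h).1], by linarith [(u5 h).2]⟩, by linarith,
          fun h => abs_le.2 ⟨by linarith [(u6 h).1], by linarith [(u6 h).2]⟩⟩
      · obtain ⟨u1, u2, u3, u4⟩ := sgl_coord h1 hR (by first | exact b0 | exact b1 | exact b2 | exact b3) hw
        exact ⟨by linarith, fun h => by linarith, by linarith, fun _ => abs_le.2 ⟨by linarith, by linarith⟩⟩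
    · by_cases k2 : k = j
      · subst k2
        rw [hNj] at hw
        rw [hej, hj]
        rcases hw with (hw | hw) | hw
        · obtain ⟨u1, u2, u3, u4⟩ := sgl_coord h1 hR (by first | exact b0 | exact b1 | exact b2 | exact b3) hw
          exact ⟨by linarith, fun _ => abs_le.2 ⟨by linarith, by linarith⟩, by linarith, fun h => by linarith⟩
        · obtain ⟨u1, u2, u3, u4, u5, u6⟩ := cQ w hw
          exact ⟨by linarith, fun h => abs_le.2 ⟨by linarith [(u5 h).1], by linarith [(u5 h).2]⟩, by linarith,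
            fun h => abs_le.2 ⟨by linarith [(u6 h).1], by linarith [(u6 h).2]⟩⟩
        · obtain ⟨u1, u2, u3, u4⟩ := sgl_coord h1 hR (by first | exact b0 | exact b1 | exact b2 | exact b3) hw
          exact ⟨by linarith, fun h => by linarith, by linarith, fun _ => abs_le.2 ⟨by linarith, by linarith⟩⟩
      · rw [hNk k k1 k2] at hw
        rw [hek k k1 k2]
        obtain ⟨u1, u2, u3, u4⟩ := seg_coord h1 hR (bs k) hw
        exact ⟨by linarith, fun _ => abs_le.2 ⟨by linarith, by linarith⟩, by linarith,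
          fun _ => abs_le.2 ⟨by linarith, by linarith⟩⟩
  · -- near the old ends
    intro k w hw
    by_cases k1 : k = i
    · subst k1
      rw [hNi]
      rw [hi] at hw
      exact Or.inl (Or.inl (mem_fat hC (Set.mem_singleton _) hw))
    · by_cases k2 : k = j
      · subst k2
        rw [hNj]
        rw [hj] at hw
        exact Or.inl (Or.inl (mem_fat hC (Set.mem_singleton _) hw))
      · rw [hNk k k1 k2]
        exact mem_fat hC (p := pt R (eta k)) ⟨le_rfl, by rw [pt0]; linarith, rfl⟩ hw
  · -- near the new ends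
    intro k w hw
    by_cases k1 : k = i
    · subst k1
      rw [hNi]
      rw [hei] at hw
      exact Or.inr (mem_fat hC (Set.mem_singleton _) hw)
    · by_cases k2 : k = j
      · subst k2
        rw [hNj]
        rw [hej] at hw
        exact Or.inr (mem_fat hC (Set.mem_singleton _) hw)
      · rw [hNk k k1 k2]
        rw [hek k k1 k2] at hw
        exact mem_fat hC (p := pt (R + L) (eta k)) ⟨by rw [pt0]; linarith, le_rfl, rfl⟩ hw

end Pool.Agent.L7h12.PM
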